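import Pool.Agent.helper27.CHS.Spec

/-!
# chs:MB, monotonicity and base case of the sieve weights
-/

set_option autoImplicit false

open Finset

namespace Pool.Agent.CHS

open Pool.Agent.SX

theorem MB_base (h : PA_stmt) (x B : ℝ) (hB : 0 ≤ B) : ∃ c : Finset ℕ → ℝ, (∀ E, |c E| ≤ 1) ∧
    (∀ E, c E ≠ 0 → E ⊆ PB x x ∧ ∑ p ∈ E, Real.log p ≤ B) ∧
    (∀ Γ ⊆ PB x x, ∑ E ∈ Γ.powerset, c E = if Γ = ∅ then 1 else 0) ∧
    ∑ E ∈ (PB x x).powerset, c E * g E = 1 := by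
  refine ⟨fun E => if E = ∅ then 1 else 0, ?_, ?_, ?_, ?_⟩
  · intro E
    dsimp only
    split_ifs <;> simp
  · intro E hE
    have hE' : E = ∅ := by
      by_contra hne
      exact hE (if_neg hne)
    subst hE'
    refine ⟨empty_subset _, ?_⟩
    rw [sum_empty]
    exact hB
  · intro Γ hΓ
    rw [h.2.2.2 x] at hΓ
    have : Γ = ∅ := subset_empty.1 hΓ
    subst this
    simp
  · rw [h.2.2.2 x]
    simp [g]

theorem MB (hPA : PA_stmt) : MB_stmt := by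
  have hV : ∀ x h : ℝ, 2 ≤ x → 0 < V (PB x h) := fun x h hx => (hPA.2.2.1 x h hx).1
  refine ⟨?_, ?_, ?_, ?_⟩
  · rintro x h B B' v v' hx hB hv ⟨c, h1, h2, h3, h4⟩
    refine ⟨c, h1, fun E hE => ⟨(h2 E hE).1, (h2 E hE).2.trans hB⟩, h3, le_trans ?_ h4⟩
    exact mul_le_mul_of_nonneg_left (by linarith) (hV x h hx).le
  · rintro x h B B' v v' hx hB hv ⟨c, h1, h2, h3, h4⟩
    refine ⟨c, h1, fun E hE => ⟨(h2 E hE).1, (h2 E hE).2.trans hB⟩, h3, le_trans h4 ?_⟩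
    exact mul_le_mul_of_nonneg_left (by linarith) (hV x h hx).le
  · intro x h B
    refine ⟨fun _ => 0, fun E => by simp, fun E hE => absurd rfl hE, fun Γ hΓ => ?_, ?_⟩
    · rw [sum_const_zero]
      split_ifs <;> norm_num
    · simp
  · intro x B v hB hv
    obtain ⟨c, h1, h2, h3, h4⟩ := MB_base hPA x B hB
    have hVe : V (PB x x) = 1 := by
      rw [hPA.2.2.2 x]
      simp [V]
    refine ⟨⟨c, h1, h2, fun Γ hΓ => (h3 Γ hΓ).le, ?_⟩, ⟨c, h1, h2, fun Γ hΓ => (h3 Γ hΓ).ge, ?_⟩⟩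
    · rw [h4, hVe]
      linarith
    · rw [h4, hVe]
      linarith

end Pool.Agent.CHS
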